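import Pool.Agent.K7.H74.AG.Stm

/-! # Project AG, job TALL -/

set_option autoImplicit false

open MeasureTheory Finset

namespace Pool.Agent.K7.H20.AG

open Pool.Agent.K7.H74.AG

theorem one_le_X (J : ℕ) : (1 : ℝ) ≤ (3 : ℝ) ^ J := one_le_pow₀ (by norm_num)

theorem TT_mono {k j : ℕ} {δ δ' ε ε' η : ℝ} {a : Fin (k + j) → ℝ} (hδ : δ' ≤ δ) (hε : ε ≤ ε')
    (h : TT k j δ ε η a) : TT k j δ' ε' η a := by
  obtain ⟨C, hC⟩ := h
  refine ⟨C, fun b hb J l hJ hl => (hC b hb J l hJ ?_).trans ?_⟩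
  · refine le_trans ?_ hl
    exact mul_le_mul_of_nonneg_left
      (Real.rpow_le_rpow_of_exponent_le (one_le_X J) (by linarith)) (Nat.cast_nonneg C)
  · refine ENNReal.ofReal_le_ofReal ?_
    refine mul_le_mul_of_nonneg_right ?_ (by positivity)
    exact mul_le_mul_of_nonneg_left
      (Real.rpow_le_rpow_of_exponent_le (one_le_X J) (by linarith)) (Nat.cast_nonneg C)

theorem LL_mono {k j : ℕ} {δ δ' ε ε' η : ℝ} {a : Fin (k + j) → ℝ} (hδ : δ' ≤ δ) (hε : ε ≤ ε')
    (h : LL k j δ ε η a) : LL k j δ' ε' η a := by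
  obtain ⟨C, hC⟩ := h
  refine ⟨C, fun b hb J l hJ hl => (hC b hb J l hJ ?_).trans ?_⟩
  · refine le_trans ?_ hl
    exact mul_le_mul_of_nonneg_left
      (Real.rpow_le_rpow_of_exponent_le (one_le_X J) (by linarith)) (Nat.cast_nonneg C)
  · refine ENNReal.ofReal_le_ofReal ?_
    refine mul_le_mul_of_nonneg_right ?_ (by positivity)
    exact mul_le_mul_of_nonneg_left
      (Real.rpow_le_rpow_of_exponent_le (one_le_X J) (by linarith)) (Nat.cast_nonneg C)

theorem meas_TT (hM : StMeas) (k j : ℕ) (δ ε η : ℝ) :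
    MeasurableSet {a : Fin (k + j) → ℝ | TT k j δ ε η a} := by
  simp only [TT, Set.ofPred_exists, Set.ofPred_forall]
  refine MeasurableSet.iUnion fun C => MeasurableSet.iInter fun b => MeasurableSet.iInter fun _ =>
    MeasurableSet.iInter fun J => MeasurableSet.iInter fun l => MeasurableSet.iInter fun _ =>
    MeasurableSet.iInter fun _ => ?_
  exact hM.2.2.2.2.2.2.1 k (k + j) b η l _

theorem meas_LL (hM : StMeas) (k j : ℕ) (δ ε η : ℝ) :
    MeasurableSet {a : Fin (k + j) → ℝ | LL k j δ ε η a} := by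
  simp only [LL, Set.ofPred_exists, Set.ofPred_forall]
  refine MeasurableSet.iUnion fun C => MeasurableSet.iInter fun b => MeasurableSet.iInter fun _ =>
    MeasurableSet.iInter fun J => MeasurableSet.iInter fun l => MeasurableSet.iInter fun _ =>
    MeasurableSet.iInter fun _ => ?_
  exact hM.2.2.2.2.2.2.2 k (k + j) b η l _

theorem tall (hTb : StTbase) (hTs : StTstep) (hLs : StLstep) (hS : StS) (hPle : StPle)
    (hAe : StAe) (hM : StMeas) : StT := by
  intro k j m ε hk hj hm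
  induction j, hj using Nat.le_induction generalizing ε with
  | base =>
    intro hε
    exact ⟨1, one_pos, fun η h1 h2 => hTb k m ε η hk hm hε h1 h2⟩
  | succ j hj ih =>
    intro hε'
    obtain ⟨ε0, δs, hε0, hδs, hδs1, h⟩ := hTs k j m ε hk hj hm hε'
    obtain ⟨ε1, δt, hε1, hδt, hδt1, g⟩ := hLs k j m ε hk hj hm hε'
    obtain ⟨δ, hδ, hT⟩ := ih (min ε0 ε1) (lt_min hε0 hε1)
    obtain ⟨δ', hδ', h'⟩ := h δ hδ
    obtain ⟨δ'', hδ'', g'⟩ := g δ hδ
    refine ⟨min δ' δ'', lt_min hδ' hδ'', fun η h1 h2 => ?_⟩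
    refine hAe.1 m (k + j) (fun a => TT k (j + 1) (min δ' δ'') ε η a ∧
      LL k (j + 1) (min δ' δ'') ε η a)
      ((meas_TT hM k (j + 1) (min δ' δ'') ε η).inter (meas_LL hM k (j + 1) (min δ' δ'') ε η)) ?_
    filter_upwards [hT η h1 h2, hS k (k + j) (j + 1) m δs hk hm hδs hδs1, hAe.2.2.1 m (k + j)]
      with a h3 h4 hc
    filter_upwards [hPle k (k + j) m δs η hk hm hδs h2 a, hPle k (k + j) m δt η hk hm hδt h2 a,
      ae_restrict_mem measurableSet_Icc] with β h5 h5' h6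
    refine ⟨TT_mono (min_le_left _ _) le_rfl (h' η a β h1 h2 hc h6.1 h6.2
      (TT_mono le_rfl (min_le_left _ _) h3.1) h4 h5.2.1), ?_⟩
    exact LL_mono (min_le_right _ _) le_rfl (g' η a β h1 h2 hc h6.1 h6.2
      (LL_mono le_rfl (min_le_right _ _) h3.2) h5'.2.2)

end Pool.Agent.K7.H20.AG
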